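import Pool.Agent.Q97.UM.Stm2

set_option autoImplicit false

/-! Project UM (helper97), job KER: a nonnegative kernel with a smooth compactly supported Fourier transform. -/

namespace Pool.Agent.Q195.UM

open Filter Topology MeasureTheory Complex Convolution
open Pool.Agent.W182.KO (P TF P_diff)
open scoped ContDiff

noncomputable section

/-- a bump function -/
def b0 : ContDiffBump (0 : ℝ) := ⟨1 / 4, 1 / 2, by norm_num, by norm_num⟩

/-- its squared mass -/
def m0 : ℝ := ∫ u, (b0 u) ^ 2

lemma b0_cont : Continuous (b0 : ℝ → ℝ) := b0.continuous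

lemma b0_cs : HasCompactSupport (b0 : ℝ → ℝ) := b0.hasCompactSupport

lemma m0_pos : 0 < m0 := by
  unfold m0
  have hc : Continuous (fun u : ℝ => (b0 u) ^ 2) := b0_cont.pow 2
  have hcs : HasCompactSupport (fun u : ℝ => (b0 u) ^ 2) :=
    b0_cs.comp_left (g := fun y : ℝ => y ^ 2) (by simp)
  refine hc.integral_pos_of_hasCompactSupport_nonneg_nonzero hcs (fun u => by positivity) (x := 0) ?_
  have : b0 (0 : ℝ) = 1 := b0.one_of_mem_closedBall (by simp [b0])
  simp [this]

/-- the normalised bump -/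
def ph (u : ℝ) : ℝ := b0 u / Real.sqrt m0

lemma ph_cd : ContDiff ℝ ∞ ph := by
  have h : ContDiff ℝ ∞ (b0 : ℝ → ℝ) := b0.contDiff
  exact h.div_const _

lemma ph_cont : Continuous ph := ph_cd.continuous

lemma ph_cs : HasCompactSupport ph := b0_cs.comp_left (g := fun y : ℝ => y / Real.sqrt m0) (by simp)

lemma ph_neg (u : ℝ) : ph (-u) = ph u := by
  unfold ph
  rw [b0.neg]

lemma ph_zero {u : ℝ} (h : 1 / 2 ≤ |u|) : ph u = 0 := by
  unfold ph
  rw [b0.zero_of_le_dist (by simpa [b0] using h)]
  simp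

lemma ph_sq : ∫ u, (ph u) ^ 2 = 1 := by
  have h : ∀ u, (ph u) ^ 2 = (b0 u) ^ 2 / m0 := fun u => by
    unfold ph
    rw [div_pow, Real.sq_sqrt m0_pos.le]
  simp only [h]
  rw [integral_div]
  exact div_self m0_pos.ne'

/-- the convolution square -/
def ps : ℝ → ℝ := ph ⋆[ContinuousLinearMap.mul ℝ ℝ] ph

lemma ps_apply (u : ℝ) : ps u = ∫ t, ph t * ph (u - t) := by
  simp [ps, convolution_def]

lemma ps_cd : ContDiff ℝ ∞ ps :=
  ph_cs.contDiff_convolution_right _ ph_cont.locallyIntegrable ph_cd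

lemma ps_zero {u : ℝ} (h : 1 ≤ |u|) : ps u = 0 := by
  rw [ps_apply]
  refine integral_eq_zero_of_ae (Eventually.of_forall fun t => ?_)
  simp only [Pi.zero_apply]
  by_cases ht : 1 / 2 ≤ |t|
  · rw [ph_zero ht, zero_mul]
  · push Not at ht
    have : 1 / 2 ≤ |u - t| := by
      have := abs_sub_abs_le_abs_sub u t
      linarith
    rw [ph_zero this, mul_zero]

lemma ps_cs : HasCompactSupport ps := by
  refine HasCompactSupport.intro (K := Set.Icc (-1) 1) isCompact_Icc fun x hx => ps_zero ?_
  by_contra hc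
  push Not at hc
  exact hx ⟨(abs_lt.1 hc).1.le, (abs_lt.1 hc).2.le⟩

lemma ps_one : ps 0 = 1 := by
  rw [ps_apply, ← ph_sq]
  congr 1
  funext t
  rw [zero_sub, ph_neg, sq]

lemma sq_int : Integrable (fun t => (ph t) ^ 2) := by
  have hc : Continuous (fun t => (ph t) ^ 2) := ph_cont.pow 2
  have hs : HasCompactSupport (fun t => (ph t) ^ 2) := ph_cs.comp_left (g := fun y : ℝ => y ^ 2) (by simp)
  exact hc.integrable_of_hasCompactSupport hs

lemma ps_le (u : ℝ) : |ps u| ≤ 1 := by
  rw [ps_apply, ← Real.norm_eq_abs]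
  have h2 : Integrable (fun t => (ph (u - t)) ^ 2) := sq_int.comp_sub_left u
  have h3 : ∫ t, ((ph t) ^ 2 / 2 + (ph (u - t)) ^ 2 / 2) = 1 := by
    rw [integral_add (sq_int.div_const _) (h2.div_const _), integral_div, integral_div,
      integral_sub_left_eq_self (fun t => (ph t) ^ 2) volume u, ph_sq]
    norm_num
  rw [← h3]
  refine norm_integral_le_of_norm_le ((sq_int.div_const _).add (h2.div_const _))
    (Eventually.of_forall fun t => ?_)
  rw [Real.norm_eq_abs, abs_le]
  constructor
  · nlinarith [sq_nonneg (ph t + ph (u - t))]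
  · nlinarith [sq_nonneg (ph t - ph (u - t))]

lemma ps_deriv : ∃ C : ℝ, ∀ u, |deriv ps u| ≤ C := by
  have hc : Continuous (deriv ps) := ps_cd.continuous_deriv (by simp)
  have hcs : HasCompactSupport (deriv ps) := ps_cs.deriv
  obtain ⟨C, hC⟩ := hc.bounded_above_of_compact_support hcs
  exact ⟨C, fun u => by simpa using hC u⟩

/-- the complex version of the bump -/
def phc (u : ℝ) : ℂ := (ph u : ℂ)

lemma phc_TF : TF 1 phc where
  cd := Complex.ofRealCLM.contDiff.comp ph_cd
  cs := ph_cs.comp_left (g := fun y : ℝ => (y : ℂ)) (by simp)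
  sp ξ hξ := by
    have : 1 / 2 ≤ |ξ| := by
      rw [abs_of_pos (by linarith)]
      linarith
    simp [phc, ph_zero this]

lemma P_real (x : ℝ) : (((P phc (x * I)).re : ℝ) : ℂ) = P phc (x * I) := by
  rw [← Complex.conj_eq_iff_re]
  unfold P
  rw [← integral_conj]
  rw [← integral_neg_eq_self]
  congr 1
  funext t
  simp only [map_mul, phc, Complex.conj_ofReal, ph_neg, ← Complex.exp_conj, Complex.conj_I]
  congr 2
  push_cast
  ring

lemma P_sq (x : ℝ) : P (fun u => (ps u : ℂ)) (x * I) = (P phc (x * I)) ^ 2 := by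
  set g : ℝ → ℂ := fun t => phc t * exp (t * (x * I)) with hg
  have hgi : Integrable g := phc_TF.int_exp (x * I)
  have h1 : P (fun u => (ps u : ℂ)) (x * I) = ∫ u, (g ⋆[ContinuousLinearMap.mul ℂ ℂ] g) u := by
    unfold P
    congr 1
    funext u
    rw [convolution_def]
    show (ps u : ℂ) * exp (u * (x * I)) = _
    rw [ps_apply, ← integral_complex_ofReal, ← integral_mul_const]
    congr 1
    funext t
    simp only [hg, ContinuousLinearMap.mul_apply', phc]
    have : exp (u * (x * I)) = exp (t * (x * I)) * exp (((u - t : ℝ) : ℂ) * (x * I)) := by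
      rw [← Complex.exp_add]
      congr 1
      push_cast
      ring
    rw [this]
    push_cast
    ring
  rw [h1, integral_convolution _ hgi hgi]
  simp only [ContinuousLinearMap.mul_apply']
  rw [sq]
  rfl

theorem t_KER : Pool.Agent.Q97.UM.S_KER := by
  obtain ⟨C, hC⟩ := ps_deriv
  refine ⟨ps, fun x => 1 / (2 * Real.pi) * (P phc (x * I)).re ^ 2, C, ps_cd, fun u hu => ps_zero hu, ps_one, ps_le, hC,
    ?_, fun x => by positivity, fun x => ?_⟩
  · have h := (P_diff phc_TF).continuous
    fun_prop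
  · rw [P_sq]
    push_cast
    rw [P_real]

end

end Pool.Agent.Q195.UM
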