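import Pool.Agent.Q97.UM.Stm

set_option autoImplicit false

/-!
# Gaussian mean value of an exponential sum (`S_MV` of project UM)
-/

open MeasureTheory Complex Filter

namespace Pool.Agent.Q195.UM

theorem gauss_real_int {V : ℝ} (hV : 0 < V) (t₀ : ℝ) :
    Integrable (fun t : ℝ => Real.exp (-((t - t₀) / V) ^ 2)) := by
  have h := (integrable_exp_neg_mul_sq (b := (V ^ 2)⁻¹) (by positivity)).comp_sub_right t₀
  refine h.congr (Eventually.of_forall fun t => ?_)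
  simp only
  congr 1
  rw [div_pow]; ring

theorem gauss_int {V : ℝ} (hV : 0 < V) (t₀ ω : ℝ) :
    Integrable (fun t : ℝ => cexp (-(I * (ω * t : ℝ))) * (Real.exp (-((t - t₀) / V) ^ 2) : ℂ)) := by
  have h := gauss_real_int hV t₀
  refine h.mono' (by fun_prop) (Eventually.of_forall fun t => ?_)
  rw [norm_mul, Complex.norm_real, Complex.norm_exp, Real.norm_eq_abs, abs_of_pos (Real.exp_pos _)]
  simp

theorem gauss_eq {V : ℝ} (hV : 0 < V) (t₀ ω : ℝ) :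
    ∫ t : ℝ, cexp (-(I * (ω * t : ℝ))) * (Real.exp (-((t - t₀) / V) ^ 2) : ℂ) =
      ((Real.sqrt Real.pi * V * Real.exp (-(V * ω) ^ 2 / 4) : ℝ) : ℂ) * cexp (-(I * (ω * t₀ : ℝ))) := by
  have hV' : (V : ℂ) ≠ 0 := by exact_mod_cast hV.ne'
  have hb : 0 < ((((V ^ 2)⁻¹ : ℝ) : ℂ)).re := by
    rw [ofReal_re]; positivity
  have h1 := fourierIntegral_gaussian hb (-(ω : ℂ))
  have h2 : ∫ t : ℝ, cexp (-(I * (ω * t : ℝ))) * (Real.exp (-((t - t₀) / V) ^ 2) : ℂ) =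
      ∫ x : ℝ, cexp (-(I * (ω * t₀ : ℝ))) *
        (cexp (I * (-(ω : ℂ)) * x) * cexp (-(((V ^ 2)⁻¹ : ℝ) : ℂ) * x ^ 2)) := by
    rw [← integral_sub_right_eq_self (μ := volume) (fun x : ℝ => cexp (-(I * (ω * t₀ : ℝ))) *
        (cexp (I * (-(ω : ℂ)) * x) * cexp (-(((V ^ 2)⁻¹ : ℝ) : ℂ) * x ^ 2))) t₀]
    refine integral_congr_ae (Eventually.of_forall fun t => ?_)
    simp only
    rw [Complex.ofReal_exp, ← Complex.exp_add, ← Complex.exp_add, ← Complex.exp_add]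
    congr 1
    push_cast
    field_simp
    ring
  rw [h2, integral_const_mul, h1]
  have h3 : ((Real.pi : ℂ) / (((V ^ 2)⁻¹ : ℝ) : ℂ)) ^ (1 / 2 : ℂ) = ((Real.sqrt Real.pi * V : ℝ) : ℂ) := by
    have e : ((Real.pi : ℂ) / (((V ^ 2)⁻¹ : ℝ) : ℂ)) = ((Real.pi * V ^ 2 : ℝ) : ℂ) := by
      push_cast; rw [div_inv_eq_mul]
    have e2 : (1 / 2 : ℂ) = ((1 / 2 : ℝ) : ℂ) := by push_cast; rfl
    rw [e, e2, ← Complex.ofReal_cpow (by positivity), ← Real.sqrt_eq_rpow,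
      Real.sqrt_mul Real.pi_pos.le, Real.sqrt_sq hV.le]
  rw [h3]
  have h4 : cexp (-(-(ω : ℂ)) ^ 2 / (4 * (((V ^ 2)⁻¹ : ℝ) : ℂ))) = ((Real.exp (-(V * ω) ^ 2 / 4) : ℝ) : ℂ) := by
    rw [Complex.ofReal_exp]
    congr 1
    push_cast
    field_simp
  rw [h4]
  push_cast
  ring

theorem t_MV : Pool.Agent.Q97.UM.S_MV := by
  classical
  intro ι J f ω Δ V t₀ hΔ hV hsep
  set S : ℝ → ℂ := fun t => ∑ i ∈ J, f i * cexp (-(I * (ω i * t : ℝ))) with hS
  have key : ∀ t : ℝ, (((‖S t‖ ^ 2 * Real.exp (-((t - t₀) / V) ^ 2) : ℝ)) : ℂ) =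
      ∑ i ∈ J, ∑ j ∈ J, f i * (starRingEnd ℂ) (f j) *
        (cexp (-(I * ((ω i - ω j) * t : ℝ))) * (Real.exp (-((t - t₀) / V) ^ 2) : ℂ)) := by
    intro t
    have e1 : ((‖S t‖ ^ 2 : ℝ) : ℂ) = S t * (starRingEnd ℂ) (S t) := by
      rw [Complex.mul_conj, Complex.normSq_eq_norm_sq]
    rw [Complex.ofReal_mul, e1, hS]
    simp only
    rw [map_sum, Finset.sum_mul_sum, Finset.sum_mul]
    refine Finset.sum_congr rfl fun i _ => ?_
    rw [Finset.sum_mul]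
    refine Finset.sum_congr rfl fun j _ => ?_
    have e2 : (starRingEnd ℂ) (cexp (-(I * (ω j * t : ℝ)))) = cexp (I * (ω j * t : ℝ)) := by
      rw [← Complex.exp_conj]; simp
    have e3 : cexp (-(I * ((ω i - ω j) * t : ℝ))) = cexp (-(I * (ω i * t : ℝ))) * cexp (I * (ω j * t : ℝ)) := by
      rw [← Complex.exp_add]; congr 1; push_cast; ring
    rw [map_mul, e2, e3]
    ring
  have hintc : ∀ i j : ι, Integrable (fun t : ℝ => f i * (starRingEnd ℂ) (f j) *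
        (cexp (-(I * ((ω i - ω j) * t : ℝ))) * (Real.exp (-((t - t₀) / V) ^ 2) : ℂ))) :=
    fun i j => (gauss_int hV t₀ (ω i - ω j)).const_mul _
  have hint2 : Integrable (fun t : ℝ => (((‖S t‖ ^ 2 * Real.exp (-((t - t₀) / V) ^ 2) : ℝ)) : ℂ)) := by
    simp_rw [key]
    exact integrable_finsetSum _ fun i _ => integrable_finsetSum _ fun j _ => hintc i j
  have hint : Integrable (fun t : ℝ => ‖S t‖ ^ 2 * Real.exp (-((t - t₀) / V) ^ 2)) := by
    exact hint2.re.congr (Eventually.of_forall fun t => Complex.ofReal_re _)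
  refine ⟨hint, ?_⟩
  set W : ℝ := Real.sqrt Real.pi * V with hW
  have hW0 : 0 < W := by positivity
  have hval : ((∫ t : ℝ, ‖S t‖ ^ 2 * Real.exp (-((t - t₀) / V) ^ 2) : ℝ) : ℂ) =
      ∑ i ∈ J, ∑ j ∈ J, f i * (starRingEnd ℂ) (f j) *
        (((W * Real.exp (-(V * (ω i - ω j)) ^ 2 / 4) : ℝ) : ℂ) * cexp (-(I * ((ω i - ω j) * t₀ : ℝ)))) := by
    rw [← integral_complex_ofReal]
    simp_rw [key]
    rw [integral_finsetSum _ fun i _ => integrable_finsetSum _ fun j _ => hintc i j]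
    refine Finset.sum_congr rfl fun i _ => ?_
    rw [integral_finsetSum _ fun j _ => hintc i j]
    refine Finset.sum_congr rfl fun j _ => ?_
    rw [integral_const_mul, gauss_eq hV]
  have hre : ∫ t : ℝ, ‖S t‖ ^ 2 * Real.exp (-((t - t₀) / V) ^ 2) =
      ∑ i ∈ J, ∑ j ∈ J, (f i * (starRingEnd ℂ) (f j) *
        (((W * Real.exp (-(V * (ω i - ω j)) ^ 2 / 4) : ℝ) : ℂ) * cexp (-(I * ((ω i - ω j) * t₀ : ℝ))))).re := by
    have := congrArg Complex.re hval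
    rw [Complex.ofReal_re, Complex.re_sum] at this
    rw [this]
    exact Finset.sum_congr rfl fun i _ => Complex.re_sum _ _
  have hE0 : 0 ≤ Real.exp (-(V * Δ) ^ 2 / 4) := (Real.exp_pos _).le
  have hterm : ∀ i ∈ J, ∀ j ∈ J, (f i * (starRingEnd ℂ) (f j) *
        (((W * Real.exp (-(V * (ω i - ω j)) ^ 2 / 4) : ℝ) : ℂ) * cexp (-(I * ((ω i - ω j) * t₀ : ℝ))))).re ≤
      W * (if ω i = ω j then f i * (starRingEnd ℂ) (f j) else 0 : ℂ).re +
        W * (‖f i‖ * ‖f j‖ * Real.exp (-(V * Δ) ^ 2 / 4)) := by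
    intro i hi j hj
    by_cases hij : ω i = ω j
    · have e : f i * (starRingEnd ℂ) (f j) *
        (((W * Real.exp (-(V * (ω i - ω j)) ^ 2 / 4) : ℝ) : ℂ) * cexp (-(I * ((ω i - ω j) * t₀ : ℝ)))) =
          (W : ℂ) * (f i * (starRingEnd ℂ) (f j)) := by
        rw [hij]; simp; ring
      rw [e, if_pos hij, Complex.re_ofReal_mul]
      have : 0 ≤ W * (‖f i‖ * ‖f j‖ * Real.exp (-(V * Δ) ^ 2 / 4)) := by positivity
      linarith
    · rw [if_neg hij]
      have hd : Δ ≤ |ω i - ω j| := (hsep i hi j hj).resolve_left hij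
      have h1 : Real.exp (-(V * (ω i - ω j)) ^ 2 / 4) ≤ Real.exp (-(V * Δ) ^ 2 / 4) := by
        apply Real.exp_le_exp.2
        have : (V * Δ) ^ 2 ≤ (V * (ω i - ω j)) ^ 2 := by
          rw [mul_pow, mul_pow, ← sq_abs (ω i - ω j)]
          exact mul_le_mul_of_nonneg_left (pow_le_pow_left₀ hΔ.le hd 2) (sq_nonneg _)
        rw [neg_div, neg_div, neg_le_neg_iff]
        linarith
      calc _ ≤ ‖f i * (starRingEnd ℂ) (f j) *
        (((W * Real.exp (-(V * (ω i - ω j)) ^ 2 / 4) : ℝ) : ℂ) * cexp (-(I * ((ω i - ω j) * t₀ : ℝ))))‖ :=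
            Complex.re_le_norm _
        _ = ‖f i‖ * ‖f j‖ * (W * Real.exp (-(V * (ω i - ω j)) ^ 2 / 4)) := by
            have h5 : ‖cexp (-(I * ((ω i - ω j) * t₀ : ℝ)))‖ = 1 := by
              rw [Complex.norm_exp]; simp
            rw [norm_mul, norm_mul, norm_mul, h5, mul_one, Complex.norm_conj, Complex.norm_real,
              Real.norm_eq_abs, abs_of_nonneg (by positivity)]
        _ ≤ ‖f i‖ * ‖f j‖ * (W * Real.exp (-(V * Δ) ^ 2 / 4)) := by gcongr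
        _ = _ := by simp; ring
  rw [hre]
  calc _ ≤ ∑ i ∈ J, ∑ j ∈ J, (W * (if ω i = ω j then f i * (starRingEnd ℂ) (f j) else 0 : ℂ).re +
        W * (‖f i‖ * ‖f j‖ * Real.exp (-(V * Δ) ^ 2 / 4))) :=
      Finset.sum_le_sum fun i hi => Finset.sum_le_sum fun j hj => hterm i hi j hj
    _ = _ := by
      simp_rw [Finset.sum_add_distrib, ← Finset.mul_sum]
      rw [mul_add, Complex.re_sum]
      congr 1
      · congr 1
        refine Finset.sum_congr rfl fun i _ => ?_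
        rw [Complex.re_sum]
      · congr 1
        have e : (∑ i ∈ J, ‖f i‖) ^ 2 = ∑ i ∈ J, ∑ j ∈ J, ‖f i‖ * ‖f j‖ := by
          rw [sq, Finset.sum_mul_sum]
        rw [e, Finset.sum_mul]
        refine Finset.sum_congr rfl fun i _ => ?_
        rw [Finset.sum_mul]

end Pool.Agent.Q195.UM
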