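import Pool.Agent.Q97.UM.Stm14

set_option autoImplicit false

/-! Job UM8-PT1 of project UM8 (helper97). -/

namespace Pool.Agent.Q195.UM

open Finset Complex Pool.Agent.Q97.UM

lemma R9_lo {κ : ℝ} (hκ : 4 ≤ κ) (l : ℕ) : 4 + 18 / 5 * (l : ℝ) ≤ (R9 κ l : ℝ) := by
  have h1 : κ * Real.exp (9 / 10 * (l : ℝ)) ≤ (R9 κ l : ℝ) := Nat.le_ceil _
  have h2 : 9 / 10 * (l : ℝ) + 1 ≤ Real.exp (9 / 10 * (l : ℝ)) := Real.add_one_le_exp _
  have h3 : 4 * Real.exp (9 / 10 * (l : ℝ)) ≤ κ * Real.exp (9 / 10 * (l : ℝ)) :=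
    mul_le_mul_of_nonneg_right hκ (Real.exp_pos _).le
  linarith

lemma x_le {κ : ℝ} (hκ : 4 ≤ κ) (l : ℕ) :
    Real.exp (-(R9 κ l : ℝ) / 2) ≤ 1 / 4 * (1 / 2) ^ l := by
  have h1 := R9_lo hκ l
  have h2 : -(R9 κ l : ℝ) / 2 ≤ -2 + (l : ℝ) * (-(9 / 5)) := by linarith
  refine (Real.exp_le_exp.2 h2).trans ?_
  rw [Real.exp_add, Real.exp_nat_mul]
  have h3 : Real.exp (-2) ≤ 1 / 4 := by
    rw [Real.exp_neg]
    have h4 : Real.exp 2 = Real.exp 1 ^ 2 := by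
      rw [← Real.exp_nat_mul]
      norm_num
    have h5 : (2 : ℝ) ≤ Real.exp 1 := by
      have := Real.add_one_le_exp (1 : ℝ)
      linarith
    have h6 : (4 : ℝ) ≤ Real.exp 2 := by
      rw [h4]
      nlinarith
    rw [inv_le_comm₀ (Real.exp_pos _) (by norm_num)]
    linarith
  have h4 : Real.exp (-(9 / 5)) ≤ 1 / 2 := by
    rw [Real.exp_neg]
    have := Real.add_one_le_exp (9 / 5 : ℝ)
    rw [inv_le_comm₀ (Real.exp_pos _) (by norm_num)]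
    linarith
  exact mul_le_mul h3 (pow_le_pow_left₀ (Real.exp_pos _).le h4 l) (by positivity) (by norm_num)

lemma geo (J : ℕ) : ∑ l ∈ range J, (1 / 2 : ℝ) ^ l ≤ 2 := by
  have h : ∑ l ∈ range J, (1 / 2 : ℝ) ^ l = 2 - 2 * (1 / 2) ^ J := by
    induction J with
    | zero => simp
    | succ n ih => rw [Finset.sum_range_succ, ih, pow_succ]; ring
  rw [h]
  have : (0 : ℝ) ≤ (1 / 2) ^ J := by positivity
  linarith

/-- one block which is good -/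
lemma good_block (hT : S_TEX) {κ : ℝ} (hκ : 4 ≤ κ) (l : ℕ) (Q z : ℂ)
    (hQ : ‖Q‖ ≤ (R9 κ l : ℝ) / 20) (hz : ‖z‖ ≤ (R9 κ l : ℝ) / 20) :
    ‖cexp z‖ * ‖TEx (R9 κ l) (Q - z)‖ ≤
      Real.exp (3 * (1 / 4 * (1 / 2) ^ l)) * ‖TEx (R9 κ l) Q‖ := by
  have h0 := R9_lo hκ l
  have hl : (0 : ℝ) ≤ l := Nat.cast_nonneg _
  have h1 : 1 ≤ R9 κ l := by
    have : (1 : ℝ) ≤ (R9 κ l : ℝ) := by linarith
    exact_mod_cast this
  have h2 := (hT (R9 κ l) (Q - z) h1).2 (by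
    have := norm_sub_le Q z
    linarith)
  have h3 := (hT (R9 κ l) Q h1).2 (by linarith)
  set x := Real.exp (-(R9 κ l : ℝ) / 2) with hx
  have hx0 : 0 < x := Real.exp_pos _
  have hx1 : x ≤ 1 / 4 * (1 / 2) ^ l := x_le hκ l
  have hx2 : x ≤ 1 / 4 := by
    refine hx1.trans ?_
    have : (1 / 2 : ℝ) ^ l ≤ 1 := pow_le_one₀ (by norm_num) (by norm_num)
    linarith
  have e1 : ‖TEx (R9 κ l) (Q - z)‖ ≤ (1 + x) * ‖cexp (Q - z)‖ := by
    have h4 := norm_sub_norm_le (TEx (R9 κ l) (Q - z)) (cexp (Q - z))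
    linarith
  have e2 : (1 - x) * ‖cexp Q‖ ≤ ‖TEx (R9 κ l) Q‖ := by
    have h4 := norm_sub_norm_le (cexp Q) (TEx (R9 κ l) Q)
    rw [norm_sub_rev] at h4
    linarith
  have e3 : ‖cexp z‖ * ‖cexp (Q - z)‖ = ‖cexp Q‖ := by
    rw [← norm_mul, ← Complex.exp_add]
    congr 2
    ring
  have e4 : ‖cexp z‖ * ‖TEx (R9 κ l) (Q - z)‖ ≤ (1 + x) * ‖cexp Q‖ := by
    calc ‖cexp z‖ * ‖TEx (R9 κ l) (Q - z)‖ ≤ ‖cexp z‖ * ((1 + x) * ‖cexp (Q - z)‖) :=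
          mul_le_mul_of_nonneg_left e1 (norm_nonneg _)
      _ = (1 + x) * (‖cexp z‖ * ‖cexp (Q - z)‖) := by ring
      _ = _ := by rw [e3]
  have e5 : (1 + x) * ‖cexp Q‖ ≤ (1 + 3 * x) * ((1 - x) * ‖cexp Q‖) := by
    have h4 : 0 ≤ ‖cexp Q‖ := norm_nonneg _
    have h5 : 1 + x ≤ (1 + 3 * x) * (1 - x) := by nlinarith
    have := mul_le_mul_of_nonneg_right h5 h4
    linarith
  have e6 : (1 + 3 * x) * ((1 - x) * ‖cexp Q‖) ≤ (1 + 3 * x) * ‖TEx (R9 κ l) Q‖ :=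
    mul_le_mul_of_nonneg_left e2 (by linarith)
  have e7 : 1 + 3 * x ≤ Real.exp (3 * (1 / 4 * (1 / 2) ^ l)) := by
    have := Real.add_one_le_exp (3 * (1 / 4 * (1 / 2 : ℝ) ^ l))
    linarith
  exact e4.trans (e5.trans (e6.trans (mul_le_mul_of_nonneg_right e7 (norm_nonneg _))))

/-- one block, in general -/
lemma any_block (hT : S_TEX) {κ : ℝ} (hκ : 4 ≤ κ) (l : ℕ) (Q z : ℂ) (Z : ℝ)
    (hQ : ‖Q‖ ≤ Z) (hz : ‖z‖ ≤ Z) :
    ‖cexp z‖ * ‖TEx (R9 κ l) (Q - z)‖ ≤ Real.exp (3 * Z) := by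
  have h0 := R9_lo hκ l
  have hl : (0 : ℝ) ≤ l := Nat.cast_nonneg _
  have h1 : 1 ≤ R9 κ l := by
    have : (1 : ℝ) ≤ (R9 κ l : ℝ) := by linarith
    exact_mod_cast this
  have h2 := (hT (R9 κ l) (Q - z) h1).1
  have h3 : ‖cexp z‖ ≤ Real.exp ‖z‖ := Complex.norm_exp_le_exp_norm z
  have h4 := norm_sub_le Q z
  calc ‖cexp z‖ * ‖TEx (R9 κ l) (Q - z)‖ ≤ Real.exp ‖z‖ * Real.exp ‖Q - z‖ :=
        mul_le_mul h3 h2 (norm_nonneg _) (Real.exp_pos _).le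
    _ = Real.exp (‖z‖ + ‖Q - z‖) := (Real.exp_add _ _).symm
    _ ≤ _ := Real.exp_le_exp.2 (by linarith)

/-- blocks which are good -/
lemma prod_good (a b : ℕ → ℝ) (ha : ∀ l, 0 ≤ a l) (hb : ∀ l, 0 ≤ b l) (s : Finset ℕ) (J : ℕ)
    (hs : s ⊆ range J) (h : ∀ l ∈ s, a l ≤ Real.exp (3 * (1 / 4 * (1 / 2) ^ l)) * b l) :
    (∏ l ∈ s, a l) ^ 2 ≤ Real.exp 3 * (∏ l ∈ s, b l) ^ 2 := by
  have h1 : ∏ l ∈ s, a l ≤ Real.exp (3 / 2) * ∏ l ∈ s, b l := by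
    calc ∏ l ∈ s, a l ≤ ∏ l ∈ s, (Real.exp (3 * (1 / 4 * (1 / 2) ^ l)) * b l) :=
          Finset.prod_le_prod (fun l _ => ha l) h
      _ = Real.exp (∑ l ∈ s, (3 * (1 / 4 * (1 / 2) ^ l))) * ∏ l ∈ s, b l := by
          rw [Finset.prod_mul_distrib, Real.exp_sum]
      _ ≤ _ := by
          apply mul_le_mul_of_nonneg_right _ (Finset.prod_nonneg fun l _ => hb l)
          apply Real.exp_le_exp.2
          have h2 : ∑ l ∈ s, (3 * (1 / 4 * (1 / 2 : ℝ) ^ l)) = 3 / 4 * ∑ l ∈ s, (1 / 2 : ℝ) ^ l := by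
            rw [Finset.mul_sum]
            exact Finset.sum_congr rfl fun l _ => by ring
          have h3 : ∑ l ∈ s, (1 / 2 : ℝ) ^ l ≤ ∑ l ∈ range J, (1 / 2 : ℝ) ^ l :=
            Finset.sum_le_sum_of_subset_of_nonneg hs fun l _ _ => by positivity
          have h4 := geo J
          rw [h2]
          linarith
  have h2 : 0 ≤ ∏ l ∈ s, a l := Finset.prod_nonneg fun l _ => ha l
  have h3 := pow_le_pow_left₀ h2 h1 2
  rw [mul_pow, ← Real.exp_nat_mul] at h3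
  have h4 : ((2 : ℕ) : ℝ) * (3 / 2) = 3 := by norm_num
  rw [h4] at h3
  exact h3

theorem t_PT1 : S_TEX → S_PT1 := by
  classical
  intro hT m κ hκ
  refine ⟨Real.exp 3, Real.one_le_exp (by norm_num), ?_⟩
  intro J k z hk hk1 i₀ j' hj'
  set Q : ℕ → ℂ := fun l => ∑ i, (k i : ℂ) * z i l with hQ
  set Z : ℕ → ℝ := fun l => ∑ i, ‖z i l‖ with hZ
  have hZi : ∀ i l, ‖z i l‖ ≤ Z l := fun i l =>
    Finset.single_le_sum (f := fun i => ‖z i l‖) (fun i _ => norm_nonneg _) (Finset.mem_univ i)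
  have hki : ∀ i, k i ≤ 1 := fun i =>
    (Finset.single_le_sum (f := k) (fun i _ => hk i) (Finset.mem_univ i)).trans hk1
  have hQZ : ∀ l, ‖Q l‖ ≤ Z l := by
    intro l
    refine (norm_sum_le _ _).trans (Finset.sum_le_sum fun i _ => ?_)
    rw [norm_mul, Complex.norm_real, Real.norm_of_nonneg (hk i)]
    have := mul_le_mul_of_nonneg_right (hki i) (norm_nonneg (z i l))
    linarith
  have hQg : ∀ l (c : ℝ), 0 ≤ c → (∀ i, ‖z i l‖ ≤ c) → ‖Q l‖ ≤ c := by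
    intro l c hc h
    refine (norm_sum_le _ _).trans ?_
    have h1 : ∀ i ∈ (Finset.univ : Finset (Fin m)), ‖(k i : ℂ) * z i l‖ ≤ k i * c := by
      intro i _
      rw [norm_mul, Complex.norm_real, Real.norm_of_nonneg (hk i)]
      exact mul_le_mul_of_nonneg_left (h i) (hk i)
    refine (Finset.sum_le_sum h1).trans ?_
    rw [← Finset.sum_mul]
    have := mul_le_mul_of_nonneg_right hk1 hc
    linarith
  set a : ℕ → ℝ := fun l => ‖cexp (z i₀ l)‖ * ‖TEx (R9 κ l) (Q l - z i₀ l)‖ with ha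
  set b : ℕ → ℝ := fun l => ‖TEx (R9 κ l) (Q l)‖ with hb
  have ha0 : ∀ l, 0 ≤ a l := fun l => mul_nonneg (norm_nonneg _) (norm_nonneg _)
  have hb0 : ∀ l, 0 ≤ b l := fun l => norm_nonneg _
  have ha1 : ∀ l, a l ≤ Real.exp (3 * Z l) := fun l =>
    any_block hT hκ l (Q l) (z i₀ l) (Z l) (hQZ l) (hZi i₀ l)
  have hcomm : ∀ n, ∑ i, ∑ l ∈ range n, ‖z i l‖ = ∑ l ∈ range n, Z l := fun n =>
    Finset.sum_comm
  simp only [hcomm]
  -- the left-hand side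
  have hL : ‖cexp (∑ l ∈ range J, z i₀ l)‖ ^ 2 *
      ‖∏ l ∈ Ico j' J, TEx (R9 κ l) (Q l - z i₀ l)‖ ^ 2 =
      ((∏ l ∈ range j', ‖cexp (z i₀ l)‖) * ∏ l ∈ Ico j' J, a l) ^ 2 := by
    rw [Complex.exp_sum, norm_prod, norm_prod, ← Finset.prod_range_mul_prod_Ico _ hj', ha,
      Finset.prod_mul_distrib]
    ring
  rw [hL]
  have hE : ∀ n, ∏ l ∈ range n, ‖cexp (z i₀ l)‖ ≤ Real.exp (∑ l ∈ range n, Z l) := by
    intro n
    rw [Real.exp_sum]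
    apply Finset.prod_le_prod (fun l _ => norm_nonneg _)
    intro l _
    exact (Complex.norm_exp_le_exp_norm _).trans (Real.exp_le_exp.2 (hZi i₀ l))
  have hE0 : 0 ≤ ∏ l ∈ range j', ‖cexp (z i₀ l)‖ := Finset.prod_nonneg fun l _ => norm_nonneg _
  have hZ0 : ∀ l, 0 ≤ Z l := fun l => Finset.sum_nonneg fun i _ => norm_nonneg _
  have hterm : ∀ j, 0 ≤ ‖∏ l ∈ Ico (j + 1) J, TEx (R9 κ l) (Q l)‖ ^ 2 *
      Real.exp (6 * ∑ l ∈ range (j + 1), Z l) * ∑ i, (20 * ‖z i j‖ / R9 κ j) ^ (2 * s7 j) := by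
    intro j
    apply mul_nonneg (by positivity)
    exact Finset.sum_nonneg fun i _ => by positivity
  have hR : ∀ l, (0 : ℝ) < R9 κ l := by
    intro l
    have h0 := R9_lo hκ l
    have hl : (0 : ℝ) ≤ l := Nat.cast_nonneg _
    linarith
  have hgood : ∀ l, (∀ i, ‖z i l‖ ≤ (R9 κ l : ℝ) / 20) →
      a l ≤ Real.exp (3 * (1 / 4 * (1 / 2) ^ l)) * b l := fun l hl =>
    good_block hT hκ l (Q l) (z i₀ l) (hQg l _ (by have := hR l; positivity) hl) (hl i₀)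
  have hsplit : ∀ s : Finset ℕ, ‖∏ l ∈ s, TEx (R9 κ l) (Q l)‖ = ∏ l ∈ s, b l := fun s =>
    norm_prod _ _
  by_cases hall : ∀ l ∈ Ico j' J, ∀ i, ‖z i l‖ ≤ (R9 κ l : ℝ) / 20
  · have h1 := prod_good a b ha0 hb0 (Ico j' J) J (by
      intro l hl
      rw [Finset.mem_Ico] at hl
      exact Finset.mem_range.2 hl.2) (fun l hl => hgood l (hall l hl))
    have h2 : (∏ l ∈ range j', ‖cexp (z i₀ l)‖) ^ 2 ≤ Real.exp (6 * ∑ l ∈ range j', Z l) := by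
      have h3 := pow_le_pow_left₀ hE0 (hE j') 2
      rw [← Real.exp_nat_mul] at h3
      refine h3.trans (Real.exp_le_exp.2 ?_)
      have : 0 ≤ ∑ l ∈ range j', Z l := Finset.sum_nonneg fun l _ => hZ0 l
      push_cast
      linarith
    rw [mul_pow]
    have h3 : (∏ l ∈ range j', ‖cexp (z i₀ l)‖) ^ 2 * (∏ l ∈ Ico j' J, a l) ^ 2 ≤
        Real.exp (6 * ∑ l ∈ range j', Z l) * (Real.exp 3 * (∏ l ∈ Ico j' J, b l) ^ 2) :=
      mul_le_mul h2 h1 (by positivity) (Real.exp_pos _).le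
    have h4 : 0 ≤ ∑ j ∈ Ico j' J, ‖∏ l ∈ Ico (j + 1) J, TEx (R9 κ l) (Q l)‖ ^ 2 *
      Real.exp (6 * ∑ l ∈ range (j + 1), Z l) * ∑ i, (20 * ‖z i j‖ / R9 κ j) ^ (2 * s7 j) :=
      Finset.sum_nonneg fun j _ => hterm j
    rw [hsplit (Ico j' J)]
    refine h3.trans ?_
    have h5 := mul_nonneg (Real.exp_pos 3).le h4
    rw [mul_add]
    linarith
  · push Not at hall
    obtain ⟨l₀, hl₀, i₁, hi₁⟩ := hall
    have hne : ((Ico j' J).filter fun l => ∃ i, (R9 κ l : ℝ) / 20 < ‖z i l‖).Nonempty :=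
      ⟨l₀, by rw [Finset.mem_filter]; exact ⟨hl₀, i₁, hi₁⟩⟩
    obtain ⟨j, hj, hmax⟩ := Finset.exists_max_image _ id hne
    rw [Finset.mem_filter] at hj
    obtain ⟨hjm, i, hi⟩ := hj
    have hjm' := hjm
    rw [Finset.mem_Ico] at hjm
    have hg : ∀ l ∈ Ico (j + 1) J, ∀ i, ‖z i l‖ ≤ (R9 κ l : ℝ) / 20 := by
      intro l hl i'
      rw [Finset.mem_Ico] at hl
      by_contra hcon
      push Not at hcon
      have := hmax l (by
        rw [Finset.mem_filter, Finset.mem_Ico]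
        exact ⟨⟨by omega, hl.2⟩, i', hcon⟩)
      simp only [id] at this
      omega
    have h1 := prod_good a b ha0 hb0 (Ico (j + 1) J) J (by
      intro l hl
      rw [Finset.mem_Ico] at hl
      exact Finset.mem_range.2 hl.2) (fun l hl => hgood l (hg l hl))
    have hI : ∏ l ∈ Ico j' J, a l = (∏ l ∈ Ico j' (j + 1), a l) * ∏ l ∈ Ico (j + 1) J, a l :=
      (Finset.prod_Ico_consecutive a (by omega) (by omega)).symm
    have h2 : (∏ l ∈ range j', ‖cexp (z i₀ l)‖) * ∏ l ∈ Ico j' (j + 1), a l ≤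
        Real.exp (3 * ∑ l ∈ range (j + 1), Z l) := by
      have e1 : ∏ l ∈ Ico j' (j + 1), a l ≤ Real.exp (3 * ∑ l ∈ Ico j' (j + 1), Z l) := by
        rw [Finset.mul_sum, Real.exp_sum]
        exact Finset.prod_le_prod (fun l _ => ha0 l) fun l _ => ha1 l
      have e2 : ∏ l ∈ range j', ‖cexp (z i₀ l)‖ ≤ Real.exp (3 * ∑ l ∈ range j', Z l) := by
        refine (hE j').trans (Real.exp_le_exp.2 ?_)
        have : 0 ≤ ∑ l ∈ range j', Z l := Finset.sum_nonneg fun l _ => hZ0 l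
        linarith
      refine (mul_le_mul e2 e1 (Finset.prod_nonneg fun l _ => ha0 l) (Real.exp_pos _).le).trans ?_
      rw [← Real.exp_add, ← mul_add, Finset.sum_range_add_sum_Ico _ (by omega)]
    have h3 : ((∏ l ∈ range j', ‖cexp (z i₀ l)‖) * ∏ l ∈ Ico j' J, a l) ^ 2 ≤
        Real.exp 3 * ((∏ l ∈ Ico (j + 1) J, b l) ^ 2 * Real.exp (6 * ∑ l ∈ range (j + 1), Z l)) := by
      rw [hI, ← mul_assoc, mul_pow]
      have e1 := pow_le_pow_left₀ (mul_nonneg hE0 (Finset.prod_nonneg fun l _ => ha0 l)) h2 2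
      rw [← Real.exp_nat_mul] at e1
      refine (mul_le_mul e1 h1 (by positivity) (Real.exp_pos _).le).trans (le_of_eq ?_)
      have e2 : ((2 : ℕ) : ℝ) * (3 * ∑ l ∈ range (j + 1), Z l) = 6 * ∑ l ∈ range (j + 1), Z l := by
        push_cast
        ring
      rw [e2]
      ring
    have h4 : (1 : ℝ) ≤ ∑ i, (20 * ‖z i j‖ / R9 κ j) ^ (2 * s7 j) := by
      have e1 : (1 : ℝ) ≤ (20 * ‖z i j‖ / R9 κ j) ^ (2 * s7 j) := by
        apply one_le_pow₀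
        rw [le_div_iff₀ (hR j)]
        linarith
      exact e1.trans (Finset.single_le_sum (f := fun i => (20 * ‖z i j‖ / R9 κ j) ^ (2 * s7 j))
        (fun i _ => by positivity) (Finset.mem_univ i))
    have h5 : ‖∏ l ∈ Ico (j + 1) J, TEx (R9 κ l) (Q l)‖ ^ 2 *
      Real.exp (6 * ∑ l ∈ range (j + 1), Z l) * ∑ i, (20 * ‖z i j‖ / R9 κ j) ^ (2 * s7 j) ≤
      ∑ j ∈ Ico j' J, ‖∏ l ∈ Ico (j + 1) J, TEx (R9 κ l) (Q l)‖ ^ 2 *
      Real.exp (6 * ∑ l ∈ range (j + 1), Z l) * ∑ i, (20 * ‖z i j‖ / R9 κ j) ^ (2 * s7 j) :=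
      Finset.single_le_sum (f := fun j => ‖∏ l ∈ Ico (j + 1) J, TEx (R9 κ l) (Q l)‖ ^ 2 *
      Real.exp (6 * ∑ l ∈ range (j + 1), Z l) * ∑ i, (20 * ‖z i j‖ / R9 κ j) ^ (2 * s7 j))
        (fun j _ => hterm j) hjm'
    refine h3.trans (mul_le_mul_of_nonneg_left ?_ (Real.exp_pos _).le)
    have h6 : 0 ≤ ‖∏ l ∈ Ico j' J, TEx (R9 κ l) (Q l)‖ ^ 2 *
        Real.exp (6 * ∑ l ∈ range j', Z l) := by positivity
    refine le_trans ?_ (le_add_of_nonneg_left h6)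
    refine le_trans ?_ h5
    rw [hsplit]
    have h7 : 0 ≤ (∏ l ∈ Ico (j + 1) J, b l) ^ 2 * Real.exp (6 * ∑ l ∈ range (j + 1), Z l) := by
      positivity
    calc _ = (∏ l ∈ Ico (j + 1) J, b l) ^ 2 * Real.exp (6 * ∑ l ∈ range (j + 1), Z l) * 1 :=
          (mul_one _).symm
      _ ≤ _ := mul_le_mul_of_nonneg_left h4 h7

end Pool.Agent.Q195.UM
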